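import Pool.Agent.Y150.KS.Defs

/-!
# Project KS: canonical heights by Tate's limit (helper700)
-/

set_option autoImplicit false

open Filter Topology

namespace Pool.Agent.Y700.KS

open Pool.Agent.Y150.KS

theorem can_one (X : DynVar) (Γ : Submonoid X.E) (L : X.Pic) (c : X.E → ℝ)
    (hcomm : ∀ f ∈ Γ, ∀ g ∈ Γ, f * g = g * f) (heig : ∀ g ∈ Γ, X.pull g L = c g • L)
    (g : X.E) (hg : g ∈ Γ) (hc : 1 < c g) :
    ∃ k : X.V → ℝ, (∃ C : ℝ, ∀ x, |k x - X.ht L x| ≤ C) ∧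
      ∀ f ∈ Γ, ∀ x, k (X.act f x) = c f * k x := by
  have hb : ∀ f ∈ Γ, ∃ C : ℝ, ∀ x, |X.ht L (X.act f x) - c f * X.ht L x| ≤ C := by
    intro f hf
    obtain ⟨C1, h1⟩ := X.ht_pull f L
    obtain ⟨C2, h2⟩ := X.ht_smul (c f) L
    refine ⟨C1 + C2, fun x => ?_⟩
    have e1 := h1 x
    have e2 := h2 x
    rw [heig f hf] at e1
    rw [abs_le] at e1 e2 ⊢
    constructor <;> linarith [e1.1, e1.2, e2.1, e2.2]
  obtain ⟨C0, h0⟩ := hb g hg
  have hc0 : 0 < c g := by linarith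
  set a : ℕ → X.V → ℝ := fun n x => (c g)⁻¹ ^ n * X.ht L (X.act (g ^ n) x) with ha
  have hr : (c g)⁻¹ < 1 := inv_lt_one_of_one_lt₀ hc
  have hr0 : 0 < (c g)⁻¹ := inv_pos.mpr hc0
  have hstep : ∀ x n, dist (a n x) (a (n + 1) x) ≤ (C0 * (c g)⁻¹) * (c g)⁻¹ ^ n := by
    intro x n
    have e1 := h0 (X.act (g ^ n) x)
    rw [← X.act_mul, ← pow_succ'] at e1
    rw [dist_comm, Real.dist_eq]
    have e2 : a (n + 1) x - a n x = (c g)⁻¹ ^ (n + 1) *
        (X.ht L (X.act (g ^ (n + 1)) x) - c g * X.ht L (X.act (g ^ n) x)) := by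
      simp only [ha]
      rw [pow_succ, mul_sub]
      have : (c g)⁻¹ ^ n * (c g)⁻¹ * (c g * X.ht L (X.act (g ^ n) x)) =
          (c g)⁻¹ ^ n * X.ht L (X.act (g ^ n) x) := by
        field_simp
      rw [this]
    rw [e2, abs_mul, abs_of_pos (pow_pos hr0 _)]
    calc (c g)⁻¹ ^ (n + 1) * |X.ht L (X.act (g ^ (n + 1)) x) - c g * X.ht L (X.act (g ^ n) x)|
        ≤ (c g)⁻¹ ^ (n + 1) * C0 := mul_le_mul_of_nonneg_left e1 (pow_pos hr0 _).le
      _ = (C0 * (c g)⁻¹) * (c g)⁻¹ ^ n := by ring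
  have hlim : ∀ x, ∃ l : ℝ, Tendsto (fun n => a n x) atTop (𝓝 l) := fun x =>
    cauchySeq_tendsto_of_complete (cauchySeq_of_le_geometric _ _ hr (hstep x))
  choose k hk using hlim
  refine ⟨k, ⟨C0 * (c g)⁻¹ / (1 - (c g)⁻¹), fun x => ?_⟩, fun f hf x => ?_⟩
  · have e1 := dist_le_of_le_geometric_of_tendsto₀ _ _ hr (hstep x) (hk x)
    rw [dist_comm, Real.dist_eq] at e1
    have e2 : a 0 x = X.ht L x := by
      simp only [ha, pow_zero, one_mul, X.act_one]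
    rw [e2] at e1
    exact e1
  · obtain ⟨Cf, hCf⟩ := hb f hf
    have e1 : ∀ n, X.act (g ^ n) (X.act f x) = X.act f (X.act (g ^ n) x) := by
      intro n
      rw [← X.act_mul, ← X.act_mul, hcomm (g ^ n) (Γ.pow_mem hg n) f hf]
    have e2 : ∀ n, |a n (X.act f x) - c f * a n x| ≤ (c g)⁻¹ ^ n * Cf := by
      intro n
      have e3 : a n (X.act f x) - c f * a n x = (c g)⁻¹ ^ n *
          (X.ht L (X.act f (X.act (g ^ n) x)) - c f * X.ht L (X.act (g ^ n) x)) := by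
        simp only [ha]
        rw [e1 n]
        ring
      rw [e3, abs_mul, abs_of_pos (pow_pos hr0 _)]
      exact mul_le_mul_of_nonneg_left (hCf _) (pow_pos hr0 _).le
    have e4 : Tendsto (fun n => (c g)⁻¹ ^ n * Cf) atTop (𝓝 0) := by
      have := (tendsto_pow_atTop_nhds_zero_of_lt_one hr0.le hr).mul_const Cf
      rwa [zero_mul] at this
    have e5 : Tendsto (fun n => a n (X.act f x) - c f * a n x) atTop (𝓝 0) :=
      squeeze_zero_norm (fun n => by rw [Real.norm_eq_abs]; exact e2 n) e4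
    have e6 : Tendsto (fun n => a n (X.act f x) - c f * a n x) atTop
        (𝓝 (k (X.act f x) - c f * k x)) := (hk (X.act f x)).sub ((hk x).const_mul _)
    have e7 := tendsto_nhds_unique e6 e5
    linarith

theorem can : S_can := by
  intro X Γ r θ χ Z hE hen
  have h : ∀ i, ∃ k : X.V → ℝ, (∃ C : ℝ, ∀ x, |k x - X.ht (θ i) x| ≤ C) ∧
      ∀ f ∈ Γ, ∀ x, k (X.act f x) = χ f i * k x := by
    intro i
    obtain ⟨g, hg, hgi, -⟩ := hen i
    exact can_one X Γ (θ i) (fun f => χ f i) hE.comm (fun f hf => hE.eig f hf i) g hg hgi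
  choose k hk1 hk2 using h
  exact ⟨k, hk1, fun g hg i x => hk2 i g hg x⟩

end Pool.Agent.Y700.KS
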